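import Mathlib

namespace Pool.Agent.Results.MP_0ea415_nt.RepetitiveDigits

open Finset

/-- The real quadratic unit `(t + √(t²-4))/2 > 1`, of norm one and trace `t` (for `t ≥ 3`). -/
noncomputable def quadUnit (t : ℕ) : ℝ := ((t : ℝ) + Real.sqrt ((t : ℝ) ^ 2 - 4)) / 2

/-! ### the unit -/

section unit

variable {t : ℕ} (ht : 3 ≤ t)
include ht

lemma sqrt_facts : 2 < Real.sqrt ((t : ℝ) ^ 2 - 4) ∧ Real.sqrt ((t : ℝ) ^ 2 - 4) < t ∧
    Real.sqrt ((t : ℝ) ^ 2 - 4) ^ 2 = (t : ℝ) ^ 2 - 4 ∧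
    (t : ℝ) - 1 < Real.sqrt ((t : ℝ) ^ 2 - 4) := by
  have h3 : (3 : ℝ) ≤ t := by exact_mod_cast ht
  have h0 : (0 : ℝ) ≤ (t : ℝ) ^ 2 - 4 := by nlinarith
  refine ⟨?_, ?_, Real.sq_sqrt h0, ?_⟩
  · apply Real.lt_sqrt_of_sq_lt; nlinarith
  · rw [Real.sqrt_lt' (by linarith)]; linarith
  · apply Real.lt_sqrt_of_sq_lt; nlinarith

lemma unit_sq : quadUnit t ^ 2 = t * quadUnit t - 1 := by
  obtain ⟨_, _, h, _⟩ := sqrt_facts ht
  unfold quadUnit
  nlinarith

lemma unit_gt : 2 < quadUnit t := by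
  obtain ⟨h1, _, _, _⟩ := sqrt_facts ht
  have h3 : (3 : ℝ) ≤ t := by exact_mod_cast ht
  unfold quadUnit
  linarith

lemma unit_pos : 0 < quadUnit t := by linarith [unit_gt ht]

lemma inv_eq : (quadUnit t)⁻¹ = t - quadUnit t := by
  have h := unit_sq ht
  have h0 := unit_pos ht
  apply inv_eq_of_mul_eq_one_right
  linarith

lemma inv_pos' : 0 < (quadUnit t)⁻¹ := inv_pos.mpr (unit_pos ht)

lemma inv_lt_half : (quadUnit t)⁻¹ < 1 / 2 := by
  rw [one_div]
  exact inv_strictAnti₀ (by norm_num) (unit_gt ht)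

lemma unit_mul_inv : quadUnit t * (quadUnit t)⁻¹ = 1 :=
  mul_inv_cancel₀ (unit_pos ht).ne'

lemma unit_irrational : Irrational (quadUnit t) := by
  have h1 : Irrational (Real.sqrt (((t ^ 2 - 4 : ℕ)) : ℝ)) := by
    rw [irrational_sqrt_natCast_iff]
    rintro ⟨r, hr⟩
    have h4 : 4 ≤ t ^ 2 := by nlinarith
    have hr' : t ^ 2 = r * r + 4 := by omega
    have h5 : r < t := by nlinarith
    have h6 : r ≤ t - 1 := by omega
    have h7 : t - 1 < r := by
      by_contra hcon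
      push Not at hcon
      obtain ⟨s, hs⟩ : ∃ s, t = s + 1 := ⟨t - 1, by omega⟩
      subst hs
      have : r ≤ s := by omega
      nlinarith
    omega
  have h4 : 4 ≤ t ^ 2 := by nlinarith
  have h2 : (((t ^ 2 - 4 : ℕ)) : ℝ) = (t : ℝ) ^ 2 - 4 := by
    rw [Nat.cast_sub h4]; push_cast; ring
  rw [h2] at h1
  have h3 : quadUnit t = (((t : ℚ) / 2 : ℚ) : ℝ) + ((1 / 2 : ℚ) : ℝ) * Real.sqrt ((t : ℝ) ^ 2 - 4) := by
    unfold quadUnit; push_cast; ring
  rw [h3]
  apply Irrational.ratCast_add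
  apply Irrational.ratCast_mul _ (by norm_num)
  exact h1

end unit

/-! ### the linear recurrence -/

/-- Lucas sequence -/
def Q (t : ℕ) : ℕ → ℤ
  | 0 => 0
  | 1 => 1
  | (n + 2) => t * Q t (n + 1) - Q t n

lemma Q_rec (t n : ℕ) : Q t (n + 2) = t * Q t (n + 1) - Q t n := rfl

lemma center_even (t : ℕ) (X : ℕ → ℤ) (hX : ∀ n, X (n + 2) = t * X (n + 1) - X n) (c : ℕ)
    (hc : 1 ≤ c) (j : ℕ) :
    (j ≤ c → X (c + j) - X (c - j) = Q t j * (X (c + 1) - X (c - 1))) ∧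
    (j + 1 ≤ c → X (c + (j + 1)) - X (c - (j + 1)) = Q t (j + 1) * (X (c + 1) - X (c - 1))) := by
  induction j with
  | zero => simp [Q]
  | succ j ih =>
    refine ⟨ih.2, ?_⟩
    intro hj
    obtain ⟨e, rfl⟩ : ∃ e, c = j + 2 + e := ⟨c - (j + 2), by omega⟩
    have h1 := ih.1 (by omega)
    have h2 := ih.2 (by omega)
    have e1 : j + 2 + e - j = e + 2 := by omega
    have e2 : j + 2 + e - (j + 1) = e + 1 := by omega
    have e3 : j + 2 + e - (j + 1 + 1) = e := by omega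
    rw [e1] at h1
    rw [e2] at h2
    rw [e3]
    have r1 := hX e
    have r2 := hX (j + 2 + e + j)
    have r3 := Q_rec t j
    have e4 : j + 2 + e + (j + 1 + 1) = j + 2 + e + j + 2 := by ring
    have e5 : j + 2 + e + (j + 1) = j + 2 + e + j + 1 := by ring
    rw [e4, r2]
    rw [e5] at h2
    have e6 : Q t (j + 1 + 1) = Q t (j + 2) := rfl
    rw [e6, r3]
    linear_combination (t : ℤ) * h2 - h1 - r1

lemma center_odd (t : ℕ) (X : ℕ → ℤ) (hX : ∀ n, X (n + 2) = t * X (n + 1) - X n) (c : ℕ)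
    (j : ℕ) :
    (j ≤ c → X (c + 1 + j) - X (c - j) = (Q t j + Q t (j + 1)) * (X (c + 1) - X c)) ∧
    (j + 1 ≤ c → X (c + 1 + (j + 1)) - X (c - (j + 1)) =
      (Q t (j + 1) + Q t (j + 2)) * (X (c + 1) - X c)) := by
  induction j with
  | zero =>
    refine ⟨by simp [Q], ?_⟩
    intro hc
    obtain ⟨e, rfl⟩ : ∃ e, c = e + 1 := ⟨c - 1, by omega⟩
    have r1 := hX e
    have r2 := hX (e + 1)
    have e1 : e + 1 - (0 + 1) = e := by omega
    have e2 : e + 1 + 1 + (0 + 1) = e + 1 + 2 := by ring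
    rw [e1, e2, r2]
    simp only [Q]
    have e3 : X (e + 1 + 1) = X (e + 2) := rfl
    rw [e3, r1]
    ring
  | succ j ih =>
    refine ⟨ih.2, ?_⟩
    intro hj
    obtain ⟨e, rfl⟩ : ∃ e, c = j + 2 + e := ⟨c - (j + 2), by omega⟩
    have h1 := ih.1 (by omega)
    have h2 := ih.2 (by omega)
    have e1 : j + 2 + e - j = e + 2 := by omega
    have e2 : j + 2 + e - (j + 1) = e + 1 := by omega
    have e3 : j + 2 + e - (j + 1 + 1) = e := by omega
    rw [e1] at h1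
    rw [e2] at h2
    rw [e3]
    have r1 := hX e
    have r2 := hX (j + 2 + e + 1 + j)
    have r3 := Q_rec t j
    have r4 := Q_rec t (j + 1)
    have e4 : j + 2 + e + 1 + (j + 1 + 1) = j + 2 + e + 1 + j + 2 := by ring
    have e5 : j + 2 + e + 1 + (j + 1) = j + 2 + e + 1 + j + 1 := by ring
    rw [e4, r2]
    rw [e5] at h2
    have e6 : Q t (j + 1 + 2) = t * Q t (j + 1 + 1) - Q t (j + 1) := r4
    have e7 : Q t (j + 1 + 1) = t * Q t (j + 1) - Q t j := r3
    have e8 : Q t (j + 2) = t * Q t (j + 1) - Q t j := r3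
    rw [e6, e7]
    rw [e8] at h2
    linear_combination (t : ℤ) * h2 - h1 - r1

section growth

variable {t : ℕ} (ht : 3 ≤ t)
include ht

lemma Q_unit (n : ℕ) : (Q t n : ℝ) * quadUnit t - Q t (n + 1) = -((quadUnit t)⁻¹) ^ n := by
  have hinv := inv_eq ht
  have hsq := unit_sq ht
  induction n with
  | zero => simp [Q]
  | succ n ih =>
    have h1 : (Q t (n + 1 + 1) : ℝ) = t * Q t (n + 1) - Q t n := by
      have := Q_rec t n
      have h2 : (Q t (n + 2) : ℝ) = ((t * Q t (n + 1) - Q t n : ℤ) : ℝ) := by rw [this]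
      push_cast at h2
      exact h2
    rw [h1, pow_succ]
    have h3 : ((quadUnit t)⁻¹) ^ n = Q t (n + 1) - (Q t n : ℝ) * quadUnit t := by linarith
    rw [h3, hinv]
    linear_combination (Q t n : ℝ) * hsq

lemma Q_nonneg (n : ℕ) : 0 ≤ Q t n ∧ Q t n ≤ Q t (n + 1) := by
  induction n with
  | zero => simp [Q]
  | succ n ih =>
    refine ⟨ih.1.trans ih.2, ?_⟩
    rw [Q_rec t n]
    have h3 : (3 : ℤ) ≤ t := by exact_mod_cast ht
    nlinarith [ih.1, ih.2]

lemma Q_succ_ge (n : ℕ) : quadUnit t ^ n ≤ Q t (n + 1) := by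
  induction n with
  | zero => simp [Q]
  | succ n ih =>
    have h := Q_unit ht (n + 1)
    have h2 : (0 : ℝ) < ((quadUnit t)⁻¹) ^ (n + 1) := pow_pos (inv_pos' ht) _
    have h3 := unit_pos ht
    rw [pow_succ]
    nlinarith

lemma Q_le (n : ℕ) : (Q t n : ℝ) ≤ quadUnit t ^ n := by
  have h1 := Q_unit ht n
  have key : ∀ n : ℕ, (Q t n : ℝ) * (quadUnit t)⁻¹ - Q t (n + 1) = -(quadUnit t) ^ n := by
    intro n
    have hinv := inv_eq ht
    have hsq := unit_sq ht
    induction n with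
    | zero => simp [Q]
    | succ n ih =>
      have h1 : (Q t (n + 1 + 1) : ℝ) = t * Q t (n + 1) - Q t n := by
        have := Q_rec t n
        have h2 : (Q t (n + 2) : ℝ) = ((t * Q t (n + 1) - Q t n : ℤ) : ℝ) := by rw [this]
        push_cast at h2
        exact h2
      rw [h1, pow_succ]
      have h3 : (quadUnit t) ^ n = Q t (n + 1) - (Q t n : ℝ) * (quadUnit t)⁻¹ := by linarith
      rw [h3, hinv]
      linear_combination (Q t n : ℝ) * hsq
  have h2 := key n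
  have h3 := unit_gt ht
  have h4 := inv_lt_half ht
  have h5 : (0 : ℝ) < ((quadUnit t)⁻¹) ^ n := pow_pos (inv_pos' ht) _
  have h6 : (Q t n : ℝ) * (quadUnit t - (quadUnit t)⁻¹) = quadUnit t ^ n - ((quadUnit t)⁻¹) ^ n := by
    linarith
  have h7 : (0 : ℝ) ≤ Q t n := by exact_mod_cast (Q_nonneg ht n).1
  nlinarith

/-- key divisibility: `X (k+l) - X k` has an integer divisor of size about `ε^(l/2)` -/
lemma key_dvd (l : ℕ) (hl : 1 ≤ l) : ∃ B : ℤ, 0 < B ∧ quadUnit t ^ l ≤ quadUnit t ^ 2 * (B : ℝ) ^ 2 ∧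
    ∀ X : ℕ → ℤ, (∀ n, X (n + 2) = t * X (n + 1) - X n) → ∀ k, B ∣ X (k + l) - X k := by
  have hgt := unit_gt ht
  have h1 : (1 : ℝ) ≤ quadUnit t := by linarith
  rcases Nat.even_or_odd' l with ⟨h, rfl | rfl⟩
  · obtain ⟨g, rfl⟩ : ∃ g, h = g + 1 := ⟨h - 1, by omega⟩
    have hQ := Q_succ_ge ht g
    have hpos : (0 : ℝ) < Q t (g + 1) := lt_of_lt_of_le (pow_pos (unit_pos ht) _) hQ
    refine ⟨Q t (g + 1), by exact_mod_cast hpos, ?_, ?_⟩
    · have h2 : quadUnit t ^ (2 * (g + 1)) = quadUnit t ^ 2 * (quadUnit t ^ g) ^ 2 := by ring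
      rw [h2]
      have h3 : (0 : ℝ) ≤ quadUnit t ^ g := by positivity
      gcongr
    · intro X hX k
      have h2 := (center_even t X hX (k + (g + 1)) (by omega) (g + 1)).1 (by omega)
      have e1 : k + (g + 1) + (g + 1) = k + 2 * (g + 1) := by ring
      have e2 : k + (g + 1) - (g + 1) = k := by omega
      rw [e1, e2] at h2
      rw [h2]
      exact dvd_mul_right _ _
  · have hQ := Q_succ_ge ht h
    have hQ0 : (0 : ℝ) ≤ Q t h := by exact_mod_cast (Q_nonneg ht h).1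
    have hpos : (0 : ℝ) < Q t (h + 1) := lt_of_lt_of_le (pow_pos (unit_pos ht) _) hQ
    have hpos2 : (0 : ℝ) < ((Q t h + Q t (h + 1) : ℤ) : ℝ) := by push_cast; linarith
    refine ⟨Q t h + Q t (h + 1), by exact_mod_cast hpos2, ?_, ?_⟩
    · have h2 : quadUnit t ^ (2 * h + 1) ≤ quadUnit t ^ (2 * h + 2) :=
        pow_le_pow_right₀ h1 (by omega)
      have h3 : quadUnit t ^ (2 * h + 2) = quadUnit t ^ 2 * (quadUnit t ^ h) ^ 2 := by ring
      refine h2.trans ?_
      rw [h3]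
      have h4 : (0 : ℝ) ≤ quadUnit t ^ h := by positivity
      have h5 : quadUnit t ^ h ≤ ((Q t h + Q t (h + 1) : ℤ) : ℝ) := by push_cast; linarith
      gcongr
    · intro X hX k
      have h2 := (center_odd t X hX (k + h) h).1 (by omega)
      have e1 : k + h + 1 + h = k + (2 * h + 1) := by ring
      have e2 : k + h - h = k := by omega
      rw [e1, e2] at h2
      rw [h2]
      exact dvd_mul_right _ _

end growth


/-! ### a Thue type lemma -/

lemma thue (B : ℤ) (hB : 0 < B) (a b : ℤ) : ∃ x y : ℤ, ∃ X : ℕ, (X : ℤ) ^ 2 ≤ B ∧ |x| ≤ X ∧ |y| ≤ X ∧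
    (x ≠ 0 ∨ y ≠ 0) ∧ B ∣ x * a + y * b := by
  obtain ⟨n, rfl⟩ : ∃ n : ℕ, B = n := ⟨B.toNat, by omega⟩
  have hn : 0 < n := by exact_mod_cast hB
  set X := Nat.sqrt n with hX
  have h1 : X * X ≤ n := Nat.sqrt_le n
  have h2 : n < (X + 1) * (X + 1) := Nat.lt_succ_sqrt n
  let f : ℕ × ℕ → ℤ := fun p => ((p.1 : ℤ) * a + p.2 * b) % n
  have hmaps : ∀ p ∈ range (X + 1) ×ˢ range (X + 1), f p ∈ Finset.Ico (0 : ℤ) n := by
    intro p _
    rw [Finset.mem_Ico]
    exact ⟨Int.emod_nonneg _ (by omega), Int.emod_lt_of_pos _ (by omega)⟩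
  have hcard : (Finset.Ico (0 : ℤ) n).card < (range (X + 1) ×ˢ range (X + 1)).card := by
    rw [Int.card_Ico, card_product, card_range]
    simpa using h2
  obtain ⟨p, hp, p', hp', hne, heq⟩ := Finset.exists_ne_map_eq_of_card_lt_of_maps_to hcard hmaps
  rw [mem_product, mem_range, mem_range] at hp hp'
  refine ⟨(p.1 : ℤ) - p'.1, (p.2 : ℤ) - p'.2, X, ?_, ?_, ?_, ?_, ?_⟩
  · rw [pow_two]; exact_mod_cast h1
  · rw [abs_le]; constructor <;> omega
  · rw [abs_le]; constructor <;> omega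
  · by_contra hcon
    push Not at hcon
    apply hne
    ext <;> omega
  · have h3 : ((p.1 : ℤ) * a + p.2 * b) % n = ((p'.1 : ℤ) * a + p'.2 * b) % n := heq
    have h5 : (n : ℤ) ∣ ((p.1 : ℤ) * a + p.2 * b) - ((p'.1 : ℤ) * a + p'.2 * b) :=
      Int.ModEq.dvd (Eq.symm h3)
    have h6 : ((p.1 : ℤ) - p'.1) * a + ((p.2 : ℤ) - p'.2) * b =
        ((p.1 : ℤ) * a + p.2 * b) - ((p'.1 : ℤ) * a + p'.2 * b) := by ring
    rw [h6]; exact h5

/-! ### the sequence of numerators for `β` -/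

/-- integers `R n` with `Q n * β - R n` bounded -/
def R (t : ℕ) (d : ℕ → ℤ) : ℕ → ℤ
  | 0 => 0
  | 1 => 0
  | (n + 2) => t * R t d (n + 1) - R t d n + d n

lemma R_rec (t : ℕ) (d : ℕ → ℤ) (n : ℕ) : R t d (n + 2) = t * R t d (n + 1) - R t d n + d n := rfl

/-- tails of the series -/
noncomputable def tail (t : ℕ) (d : ℕ → ℤ) (n : ℕ) : ℝ :=
  ∑' k : ℕ, (d (n + k) : ℝ) * ((quadUnit t)⁻¹) ^ (k + 1)

section core

variable {t : ℕ} (ht : 3 ≤ t) {d : ℕ → ℤ} {D : ℝ} (hD : ∀ k, |(d k : ℝ)| ≤ D)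
include ht hD

lemma summable_tail (n : ℕ) : Summable (fun k : ℕ => (d (n + k) : ℝ) * ((quadUnit t)⁻¹) ^ (k + 1)) := by
  have h1 := inv_pos' ht
  have h2 := inv_lt_half ht
  have hs : Summable (fun k : ℕ => (D * (quadUnit t)⁻¹) * ((quadUnit t)⁻¹) ^ k) :=
    (summable_geometric_of_lt_one h1.le (by linarith)).mul_left _
  refine Summable.of_norm_bounded hs ?_
  intro k
  rw [norm_mul, Real.norm_eq_abs, norm_pow, Real.norm_eq_abs, abs_of_pos h1, pow_succ]
  have h3 : 0 ≤ ((quadUnit t)⁻¹) ^ k := by positivity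
  calc |(d (n + k) : ℝ)| * (((quadUnit t)⁻¹) ^ k * (quadUnit t)⁻¹)
      ≤ D * (((quadUnit t)⁻¹) ^ k * (quadUnit t)⁻¹) := by
        apply mul_le_mul_of_nonneg_right (hD _) (by positivity)
    _ = _ := by ring

lemma tail_step (n : ℕ) : tail t d (n + 1) = quadUnit t * tail t d n - d n := by
  have h := (summable_tail ht hD n).tsum_eq_zero_add
  have h1 := inv_pos' ht
  have hmul := unit_mul_inv ht
  unfold tail
  rw [h]
  have h2 : ∀ k : ℕ, (d (n + (k + 1)) : ℝ) * ((quadUnit t)⁻¹) ^ (k + 1 + 1) =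
      (quadUnit t)⁻¹ * ((d (n + 1 + k) : ℝ) * ((quadUnit t)⁻¹) ^ (k + 1)) := by
    intro k
    have : n + (k + 1) = n + 1 + k := by ring
    rw [this, pow_succ _ (k + 1)]; ring
  rw [tsum_congr h2, tsum_mul_left]
  simp only [add_zero, zero_add, pow_one]
  linear_combination (-(∑' k : ℕ, (d (n + 1 + k) : ℝ) * ((quadUnit t)⁻¹) ^ (k + 1)) - (d n : ℝ)) * hmul

lemma tail_bound (n : ℕ) : |tail t d n| ≤ D := by
  have h1 := inv_pos' ht
  have h2 := inv_lt_half ht
  have hD0 : 0 ≤ D := (abs_nonneg _).trans (hD 0)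
  have hs : Summable (fun k : ℕ => (D * (quadUnit t)⁻¹) * ((quadUnit t)⁻¹) ^ k) :=
    (summable_geometric_of_lt_one h1.le (by linarith)).mul_left _
  have hb : ∀ k : ℕ, ‖(d (n + k) : ℝ) * ((quadUnit t)⁻¹) ^ (k + 1)‖ ≤
      (D * (quadUnit t)⁻¹) * ((quadUnit t)⁻¹) ^ k := by
    intro k
    rw [norm_mul, Real.norm_eq_abs, norm_pow, Real.norm_eq_abs, abs_of_pos h1, pow_succ]
    have h3 : 0 ≤ ((quadUnit t)⁻¹) ^ k := by positivity
    calc |(d (n + k) : ℝ)| * (((quadUnit t)⁻¹) ^ k * (quadUnit t)⁻¹)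
        ≤ D * (((quadUnit t)⁻¹) ^ k * (quadUnit t)⁻¹) := by
          apply mul_le_mul_of_nonneg_right (hD _) (by positivity)
      _ = _ := by ring
  have h3 := tsum_of_norm_bounded hs.hasSum hb
  rw [tsum_mul_left, tsum_geometric_of_lt_one h1.le (by linarith)] at h3
  have h4 : D * (quadUnit t)⁻¹ * (1 - (quadUnit t)⁻¹)⁻¹ ≤ D := by
    rw [mul_assoc]
    apply mul_le_of_le_one_right hD0
    rw [← div_eq_mul_inv, div_le_one (by linarith)]
    linarith
  unfold tail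
  rw [← Real.norm_eq_abs]
  exact h3.trans h4

/-- `V n = Q n β - R n` -/
lemma V_step (n : ℕ) : (Q t (n + 1) : ℝ) * tail t d 0 - R t d (n + 1) =
    (quadUnit t)⁻¹ * ((Q t n : ℝ) * tail t d 0 - R t d n) + tail t d n := by
  have hinv := inv_eq ht
  have hmul := unit_mul_inv ht
  induction n with
  | zero => simp [Q, R]
  | succ n ih =>
    have h1 := tail_step ht hD n
    have hQ : (Q t (n + 1 + 1) : ℝ) = t * Q t (n + 1) - Q t n := by
      have h2 : (Q t (n + 2) : ℝ) = ((t * Q t (n + 1) - Q t n : ℤ) : ℝ) := by rw [Q_rec t n]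
      push_cast at h2
      exact h2
    have hR : (R t d (n + 1 + 1) : ℝ) = t * R t d (n + 1) - R t d n + d n := by
      have h2 : (R t d (n + 2) : ℝ) = ((t * R t d (n + 1) - R t d n + d n : ℤ) : ℝ) := by
        rw [R_rec t d n]
      push_cast at h2
      exact h2
    rw [hQ, hR, h1]
    have ht' : (t : ℝ) = quadUnit t + (quadUnit t)⁻¹ := by rw [hinv]; ring
    have h3 : tail t d n = (Q t (n + 1) : ℝ) * tail t d 0 - R t d (n + 1) -
      (quadUnit t)⁻¹ * ((Q t n : ℝ) * tail t d 0 - R t d n) := by linarith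
    rw [h3]
    generalize tail t d 0 = β at *
    rw [ht']
    linear_combination ((Q t n : ℝ) * β - R t d n) * hmul

lemma V_bound (n : ℕ) : |(Q t n : ℝ) * tail t d 0 - R t d n| ≤ 2 * D := by
  have h1 := inv_pos' ht
  have h2 := inv_lt_half ht
  have hD0 : 0 ≤ D := (abs_nonneg _).trans (hD 0)
  induction n with
  | zero => simp [Q, R]; exact hD0
  | succ n ih =>
    rw [V_step ht hD n]
    refine (abs_add_le _ _).trans ?_
    rw [abs_mul, abs_of_pos h1]
    have h3 := tail_bound ht hD n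
    have h4 : (quadUnit t)⁻¹ * |(Q t n : ℝ) * tail t d 0 - R t d n| ≤ 1 / 2 * (2 * D) := by
      apply mul_le_mul h2.le ih (abs_nonneg _) (by norm_num)
    linarith

end core


/-! ### the window estimate -/

lemma hyp_bound {t : ℕ} (ht : 3 ≤ t) (x : ℕ → ℝ) (M : ℝ) (hM : ∀ k, |x k| ≤ M) (s : ℕ)
    (hrec : ∀ i < s, x (i + 2) = t * x (i + 1) - x i) (i : ℕ) (hi : i ≤ s) :
    |x i| ≤ 2 * M * quadUnit t * (((quadUnit t)⁻¹) ^ (s - i) + ((quadUnit t)⁻¹) ^ i) := by
  have hinv := inv_eq ht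
  have hmul := unit_mul_inv ht
  have hgt := unit_gt ht
  have hmp := inv_pos' ht
  have hmh := inv_lt_half ht
  have hM0 : 0 ≤ M := (abs_nonneg _).trans (hM 0)
  set l := quadUnit t with hl
  set u := (quadUnit t)⁻¹ with hu
  have ht' : (t : ℝ) = l + u := by rw [hinv]; ring
  have hp : ∀ j, ∀ i, i + j ≤ s → x (i + 1) - u * x i = u ^ j * (x (i + j + 1) - u * x (i + j)) := by
    intro j
    induction j with
    | zero => intro i _; simp
    | succ j ih =>
      intro i hij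
      have h1 := ih i (by omega)
      have h2 := hrec (i + j) (by omega)
      have e1 : i + (j + 1) + 1 = i + j + 2 := by ring
      have e2 : i + (j + 1) = i + j + 1 := by ring
      rw [h1, e1, e2, h2, ht', pow_succ]
      linear_combination (-(u ^ j) * x (i + j + 1)) * hmul
  have hm : ∀ i ≤ s, x (i + 1) - l * x i = u ^ i * (x 1 - l * x 0) := by
    intro i
    induction i with
    | zero => intro _; simp
    | succ i ih =>
      intro his
      have h1 := ih (by omega)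
      have h2 := hrec i (by omega)
      have e1 : i + 1 + 1 = i + 2 := rfl
      rw [e1, h2, ht', pow_succ]
      linear_combination u * h1 + x i * hmul
  have h1 := hp (s - i) i (by omega)
  have h2 := hm i hi
  have e1 : i + (s - i) = s := by omega
  rw [e1] at h1
  have h3 : (l - u) * x i = u ^ (s - i) * (x (s + 1) - u * x s) - u ^ i * (x 1 - l * x 0) := by
    rw [← h1, ← h2]; ring
  have h4 : |x (s + 1) - u * x s| ≤ 2 * M * l := by
    refine (abs_sub _ _).trans ?_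
    rw [abs_mul, abs_of_pos hmp]
    have a1 := hM (s + 1)
    have a2 : u * |x s| ≤ 1 * M := mul_le_mul (by linarith) (hM s) (abs_nonneg _) (by norm_num)
    nlinarith
  have h5 : |x 1 - l * x 0| ≤ 2 * M * l := by
    refine (abs_sub _ _).trans ?_
    rw [abs_mul, abs_of_pos (by linarith : 0 < l)]
    have a1 := hM 1
    have a2 : l * |x 0| ≤ l * M := mul_le_mul_of_nonneg_left (hM 0) (by linarith)
    nlinarith
  have h6 : |(l - u) * x i| ≤ 2 * M * l * (u ^ (s - i) + u ^ i) := by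
    rw [h3]
    refine (abs_sub _ _).trans ?_
    rw [abs_mul, abs_mul, abs_of_pos (pow_pos hmp _), abs_of_pos (pow_pos hmp _)]
    have a1 := mul_le_mul_of_nonneg_left h4 (pow_pos hmp (s - i)).le
    have a2 := mul_le_mul_of_nonneg_left h5 (pow_pos hmp i).le
    linarith
  rw [abs_mul, abs_of_pos (by linarith : 0 < l - u)] at h6
  have h7 : 1 * |x i| ≤ (l - u) * |x i| := mul_le_mul_of_nonneg_right (by linarith) (abs_nonneg _)
  linarith

lemma delta_window {t : ℕ} (ht : 3 ≤ t) {d : ℕ → ℤ} {D : ℝ} (hD : ∀ k, |(d k : ℝ)| ≤ D)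
    (n0 l s : ℕ) (hw : ∀ i < s, d (n0 + i) = d (n0 + l + i)) (i : ℕ) (hi : i ≤ s) :
    |((Q t (n0 + i + l) : ℝ) * tail t d 0 - R t d (n0 + i + l)) -
      ((Q t (n0 + i) : ℝ) * tail t d 0 - R t d (n0 + i))| ≤
      2 * (4 * D) * quadUnit t * (((quadUnit t)⁻¹) ^ (s - i) + ((quadUnit t)⁻¹) ^ i) := by
  have hV := V_bound ht hD
  have hVrec : ∀ n, ((Q t (n + 2) : ℝ) * tail t d 0 - R t d (n + 2)) =
      t * ((Q t (n + 1) : ℝ) * tail t d 0 - R t d (n + 1)) -
      ((Q t n : ℝ) * tail t d 0 - R t d n) - d n := by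
    intro n
    have h1 : (Q t (n + 2) : ℝ) = t * Q t (n + 1) - Q t n := by
      have h2 : (Q t (n + 2) : ℝ) = ((t * Q t (n + 1) - Q t n : ℤ) : ℝ) := by rw [Q_rec t n]
      push_cast at h2
      exact h2
    have h3 : (R t d (n + 2) : ℝ) = t * R t d (n + 1) - R t d n + d n := by
      have h2 : (R t d (n + 2) : ℝ) = ((t * R t d (n + 1) - R t d n + d n : ℤ) : ℝ) := by
        rw [R_rec t d n]
      push_cast at h2
      exact h2
    rw [h1, h3]; ring
  refine hyp_bound ht (fun i => ((Q t (n0 + i + l) : ℝ) * tail t d 0 - R t d (n0 + i + l)) -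
      ((Q t (n0 + i) : ℝ) * tail t d 0 - R t d (n0 + i))) (4 * D) ?_ s ?_ i hi
  · intro k
    refine (abs_sub _ _).trans ?_
    have a1 := hV (n0 + k + l)
    have a2 := hV (n0 + k)
    linarith
  · intro i hi
    have a1 := hVrec (n0 + i + l)
    have a2 := hVrec (n0 + i)
    have a3 : (d (n0 + i) : ℝ) = d (n0 + i + l) := by
      have b5 : n0 + i + l = n0 + l + i := by ring
      rw [b5, hw i hi]
    have b1 : n0 + (i + 2) + l = n0 + i + l + 2 := by ring
    have b2 : n0 + (i + 1) + l = n0 + i + l + 1 := by ring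
    have b3 : n0 + (i + 2) = n0 + i + 2 := by ring
    have b4 : n0 + (i + 1) = n0 + i + 1 := by ring
    rw [b1, b2, b3, b4, a1, a2, a3]
    ring

lemma delta_mid {t : ℕ} (ht : 3 ≤ t) {d : ℕ → ℤ} {D : ℝ} (hD : ∀ k, |(d k : ℝ)| ≤ D)
    (n0 l s : ℕ) (hs : 2 ≤ s) (hw : ∀ i < s, d (n0 + i) = d (n0 + l + i)) :
    |((Q t (n0 + s / 2 + l) : ℝ) * tail t d 0 - R t d (n0 + s / 2 + l)) -
      ((Q t (n0 + s / 2) : ℝ) * tail t d 0 - R t d (n0 + s / 2))| ≤
      8 * D * quadUnit t * (((quadUnit t)⁻¹) ^ (s - s / 2 - 1) + ((quadUnit t)⁻¹) ^ (s / 2)) ∧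
    |((Q t (n0 + s / 2 + 1 + l) : ℝ) * tail t d 0 - R t d (n0 + s / 2 + 1 + l)) -
      ((Q t (n0 + s / 2 + 1) : ℝ) * tail t d 0 - R t d (n0 + s / 2 + 1))| ≤
      8 * D * quadUnit t * (((quadUnit t)⁻¹) ^ (s - s / 2 - 1) + ((quadUnit t)⁻¹) ^ (s / 2)) := by
  have hgt := unit_gt ht
  have hmp := inv_pos' ht
  have hmh := inv_lt_half ht
  have hD0 : 0 ≤ D := (abs_nonneg _).trans (hD 0)
  have hpos : 0 ≤ 8 * D * quadUnit t := by positivity
  constructor
  · have h1 := delta_window ht hD n0 l s hw (s / 2) (by omega)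
    refine h1.trans ?_
    have h2 : ((quadUnit t)⁻¹) ^ (s - s / 2) ≤ ((quadUnit t)⁻¹) ^ (s - s / 2 - 1) :=
      pow_le_pow_of_le_one hmp.le (by linarith) (by omega)
    have h3 := mul_le_mul_of_nonneg_left h2 hpos
    linarith
  · have h1 := delta_window ht hD n0 l s hw (s / 2 + 1) (by omega)
    refine h1.trans ?_
    have h2 : ((quadUnit t)⁻¹) ^ (s / 2 + 1) ≤ ((quadUnit t)⁻¹) ^ (s / 2) :=
      pow_le_pow_of_le_one hmp.le (by linarith) (by omega)
    have h4 : s - (s / 2 + 1) = s - s / 2 - 1 := by omega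
    rw [h4]
    have h3 := mul_le_mul_of_nonneg_left h2 hpos
    linarith

lemma core {t : ℕ} (ht : 3 ≤ t) {d : ℕ → ℤ} {D : ℝ} (hD : ∀ k, |(d k : ℝ)| ≤ D)
    (K n0 l s : ℕ) (hl : 1 ≤ l) (hs : 2 ≤ s) (hK : l + K ≤ 2 * s)
    (hw : ∀ i < s, d (n0 + i) = d (n0 + l + i)) :
    ∃ q p r : ℤ, q ≠ 0 ∧ |(q : ℝ) * quadUnit t - p| ≤ 2 * ((quadUnit t)⁻¹) ^ (n0 + s / 2) ∧
      (|(q : ℝ)| * |(q : ℝ) * quadUnit t - p| * |(q : ℝ) * tail t d 0 - r|) ^ 4 ≤
        (64 * D) ^ 4 * 16 * quadUnit t ^ 18 * ((quadUnit t)⁻¹) ^ K ∧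
      (|(q : ℝ)| * |(q : ℝ) * quadUnit t - p| * |(q : ℝ) * quadUnit t - p|) ^ 4 ≤
        8 ^ 4 * quadUnit t ^ 14 * ((quadUnit t)⁻¹) ^ K := by
  have hmul := unit_mul_inv ht
  have hgt := unit_gt ht
  have hmp := inv_pos' ht
  have hmh := inv_lt_half ht
  have hD0 : 0 ≤ D := (abs_nonneg _).trans (hD 0)
  have hirr := unit_irrational ht
  set β := tail t d 0 with hβ
  obtain ⟨B, hB, hBl, hdvd⟩ := key_dvd ht l hl
  set h := s / 2 with hh
  set m := n0 + h with hm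
  have hm1 : 1 ≤ m := by omega
  obtain ⟨z0, hz0⟩ := hdvd (Q t) (Q_rec t) m
  obtain ⟨z1, hz1⟩ := hdvd (Q t) (Q_rec t) (m + 1)
  obtain ⟨z2, hz2⟩ := hdvd (Q t) (Q_rec t) (m + 2)
  obtain ⟨x, y, X, hX2, hx, hy, hxy, r, hr⟩ := thue B hB (R t d (m + l) - R t d m)
    (R t d (m + 1 + l) - R t d (m + 1))
  have hBr : (0 : ℝ) < B := by exact_mod_cast hB
  have hXr : (X : ℝ) ^ 2 ≤ B := by exact_mod_cast hX2
  have hX0 : (0 : ℝ) ≤ X := Nat.cast_nonneg _
  have hxr : |(x : ℝ)| ≤ X := by exact_mod_cast hx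
  have hyr : |(y : ℝ)| ≤ X := by exact_mod_cast hy
  have hB1 : (1 : ℝ) ≤ B := by exact_mod_cast hB
  have hXB : (X : ℝ) ≤ B := by
    have : (X : ℤ) ≤ B := by
      rcases Nat.eq_zero_or_pos X with h0 | h0
      · rw [h0]; exact_mod_cast hB.le
      · have : (1 : ℤ) ≤ X := by exact_mod_cast h0
        nlinarith
    exact_mod_cast this
  -- real versions
  have hz0r : (Q t (m + l) : ℝ) - Q t m = B * z0 := by exact_mod_cast hz0
  have hz1r : (Q t (m + 1 + l) : ℝ) - Q t (m + 1) = B * z1 := by exact_mod_cast hz1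
  have hz2r : (Q t (m + 2 + l) : ℝ) - Q t (m + 2) = B * z2 := by exact_mod_cast hz2
  have hrr : (x : ℝ) * (R t d (m + l) - R t d m) + y * (R t d (m + 1 + l) - R t d (m + 1)) =
      B * r := by exact_mod_cast hr
  have g0 := Q_unit ht m
  have g0l := Q_unit ht (m + l)
  have g1 := Q_unit ht (m + 1)
  have g1l := Q_unit ht (m + 1 + l)
  have e1 : m + l + 1 = m + 1 + l := by ring
  have e2 : m + 1 + l + 1 = m + 2 + l := by ring
  have e3 : m + 1 + 1 = m + 2 := rfl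
  rw [e1] at g0l
  rw [e2] at g1l
  rw [e3] at g1
  set lam := quadUnit t with hlam
  set u := (quadUnit t)⁻¹ with hu
  -- sigma
  set σ : ℝ := u ^ m - u ^ (m + l) with hσ
  have hu1 : u < 1 := by linarith
  have hσpos : 0 < σ := by
    have : u ^ (m + l) < u ^ m := pow_lt_pow_right_of_lt_one₀ hmp hu1 (by omega)
    linarith
  have hσle : σ ≤ u ^ m := by
    have : 0 < u ^ (m + l) := pow_pos hmp _
    linarith
  have hqp : (B : ℝ) * (((x * z0 + y * z1 : ℤ) : ℝ) * lam - ((x * z1 + y * z2 : ℤ) : ℝ)) =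
      (x + y * u) * σ := by
    have hs0 : (B : ℝ) * z0 * lam - B * z1 = σ := by
      rw [← hz0r, ← hz1r, hσ]
      linear_combination g0l - g0
    have hs1 : (B : ℝ) * z1 * lam - B * z2 = u * σ := by
      rw [← hz1r, ← hz2r, hσ]
      have h1 : u ^ (m + 1 + l) = u * u ^ (m + l) := by ring
      have h2 : u ^ (m + 1) = u * u ^ m := by ring
      rw [h1] at g1l
      rw [h2] at g1
      linear_combination g1l - g1
    push_cast
    linear_combination (x : ℝ) * hs0 + (y : ℝ) * hs1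
  have hqp_ne : (x : ℝ) + y * u ≠ 0 := by
    intro h0
    have hinv := inv_eq ht
    have huirr : Irrational u := by
      rw [hu]
      exact hirr.inv
    by_cases hy0 : y = 0
    · subst hy0
      simp only [Int.cast_zero, zero_mul, add_zero, Int.cast_eq_zero] at h0
      simp [h0] at hxy
    · apply huirr
      refine ⟨-(x : ℚ) / y, ?_⟩
      have hy0' : (y : ℝ) ≠ 0 := by exact_mod_cast hy0
      push_cast
      field_simp
      linarith
  have habs_xy : |(x : ℝ) + y * u| ≤ 2 * X := by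
    refine (abs_add_le _ _).trans ?_
    rw [abs_mul, abs_of_pos hmp]
    have : |(y : ℝ)| * u ≤ X * 1 := mul_le_mul hyr (by linarith) hmp.le hX0
    linarith
  have hqp_abs : |((x * z0 + y * z1 : ℤ) : ℝ) * lam - ((x * z1 + y * z2 : ℤ) : ℝ)| ≤
      2 * X * u ^ m / B := by
    rw [le_div_iff₀ hBr]
    have h1 : |((x * z0 + y * z1 : ℤ) : ℝ) * lam - ((x * z1 + y * z2 : ℤ) : ℝ)| * B =
        |(x : ℝ) + y * u| * σ := by
      rw [← abs_of_pos hBr, ← abs_mul, mul_comm _ (B : ℝ), hqp, abs_mul, abs_of_pos hσpos]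
    rw [h1]
    exact mul_le_mul habs_xy hσle hσpos.le (by positivity)
  have hqp_le2 : 2 * X * u ^ m / B ≤ 2 * u ^ m := by
    rw [div_le_iff₀ hBr]
    have : 0 < u ^ m := pow_pos hmp _
    nlinarith
  have hum : 2 * u ^ m < 1 := by
    have h1 : u ^ m ≤ u ^ 1 := pow_le_pow_of_le_one hmp.le hu1.le hm1
    rw [pow_one] at h1
    linarith
  refine ⟨x * z0 + y * z1, x * z1 + y * z2, r, ?_, hqp_abs.trans hqp_le2, ?_⟩
  · intro hq0
    have h1 : |((x * z1 + y * z2 : ℤ) : ℝ)| < 1 := by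
      have h2 := hqp_abs
      rw [hq0] at h2
      simp only [Int.cast_zero, zero_mul, zero_sub, abs_neg] at h2
      linarith
    have h2 : x * z1 + y * z2 = 0 := by
      rw [← Int.cast_abs] at h1
      have h3 : |x * z1 + y * z2| < 1 := by exact_mod_cast h1
      exact Int.abs_lt_one_iff.mp h3
    rw [hq0, h2] at hqp
    simp only [Int.cast_zero, zero_mul, sub_zero, mul_zero] at hqp
    rcases mul_eq_zero.mp hqp.symm with h3 | h3
    · exact hqp_ne h3
    · linarith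
  · -- bound for q
    have hQb : ∀ k, |(Q t (k + l) : ℝ) - Q t k| ≤ lam ^ (k + l) := by
      intro k
      have h1 : (0 : ℝ) ≤ Q t k := by exact_mod_cast (Q_nonneg ht k).1
      have h2 : (Q t k : ℝ) ≤ Q t (k + l) := by
        have : Monotone (Q t) := monotone_nat_of_le_succ (fun n => (Q_nonneg ht n).2)
        exact_mod_cast this (Nat.le_add_right k l)
      have h3 := Q_le ht (k + l)
      rw [abs_of_nonneg (by linarith)]
      linarith
    have hq_abs : |((x * z0 + y * z1 : ℤ) : ℝ)| ≤ 2 * X * lam ^ (m + 1 + l) / B := by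
      rw [le_div_iff₀ hBr]
      have h1 : ((x * z0 + y * z1 : ℤ) : ℝ) * B = x * ((Q t (m + l) : ℝ) - Q t m) +
          y * ((Q t (m + 1 + l) : ℝ) - Q t (m + 1)) := by
        rw [hz0r, hz1r]; push_cast; ring
      have h2 : |((x * z0 + y * z1 : ℤ) : ℝ)| * B = |((x * z0 + y * z1 : ℤ) : ℝ) * B| := by
        rw [abs_mul, abs_of_pos hBr]
      rw [h2, h1]
      refine (abs_add_le _ _).trans ?_
      rw [abs_mul, abs_mul]
      have h3 : |(x : ℝ)| * |(Q t (m + l) : ℝ) - Q t m| ≤ X * lam ^ (m + 1 + l) := by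
        apply mul_le_mul hxr _ (abs_nonneg _) hX0
        exact (hQb m).trans (pow_le_pow_right₀ (by linarith) (by omega))
      have h4 : |(y : ℝ)| * |(Q t (m + 1 + l) : ℝ) - Q t (m + 1)| ≤ X * lam ^ (m + 1 + l) :=
        mul_le_mul hyr (hQb (m + 1)) (abs_nonneg _) hX0
      linarith
    -- bound for Delta
    let V : ℕ → ℝ := fun n => (Q t n : ℝ) * β - R t d n
    set ρ : ℝ := u ^ (s - h - 1) + u ^ h with hρ
    have hρ0 : 0 < ρ := add_pos (pow_pos hmp _) (pow_pos hmp _)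
    obtain ⟨hΔ0, hΔ1⟩ : |V (m + l) - V m| ≤ 8 * D * lam * ρ ∧
        |V (m + 1 + l) - V (m + 1)| ≤ 8 * D * lam * ρ := delta_mid ht hD n0 l s hs hw
    have hqr_abs : |((x * z0 + y * z1 : ℤ) : ℝ) * β - r| ≤ 2 * X * (8 * D * lam * ρ) / B := by
      rw [le_div_iff₀ hBr]
      have h1 : (((x * z0 + y * z1 : ℤ) : ℝ) * β - r) * B = x * (V (m + l) - V m) +
          y * (V (m + 1 + l) - V (m + 1)) := by
        simp only [V]
        push_cast
        linear_combination (-(x : ℝ) * β) * hz0r - (y : ℝ) * β * hz1r + hrr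
      have h2 : |((x * z0 + y * z1 : ℤ) : ℝ) * β - r| * B =
          |(((x * z0 + y * z1 : ℤ) : ℝ) * β - r) * B| := by
        rw [abs_mul, abs_of_pos hBr]
      rw [h2, h1]
      refine (abs_add_le _ _).trans ?_
      rw [abs_mul, abs_mul]
      have h3 := mul_le_mul hxr hΔ0 (abs_nonneg _) hX0
      have h4 := mul_le_mul hyr hΔ1 (abs_nonneg _) hX0
      linarith
    -- total product
    set q : ℝ := ((x * z0 + y * z1 : ℤ) : ℝ) with hq
    set p : ℝ := ((x * z1 + y * z2 : ℤ) : ℝ) with hp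
    have hXB12 : lam ^ (4 * l) * (X / B) ^ 12 ≤ lam ^ (6 + l) := by
      have h1 : ((X : ℝ) / B) ^ 12 ≤ 1 / (B : ℝ) ^ 6 := by
        rw [div_pow, div_le_div_iff₀ (by positivity) (by positivity)]
        have h2 : (X : ℝ) ^ 12 ≤ (B : ℝ) ^ 6 := by
          have h3 : (X : ℝ) ^ 12 = ((X : ℝ) ^ 2) ^ 6 := by ring
          rw [h3]
          exact pow_le_pow_left₀ (by positivity) hXr 6
        have h4 : (B : ℝ) ^ 12 = (B : ℝ) ^ 6 * (B : ℝ) ^ 6 := by ring
        rw [h4, one_mul]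
        exact mul_le_mul_of_nonneg_right h2 (by positivity)
      have h2 : lam ^ (3 * l) ≤ lam ^ 6 * (B : ℝ) ^ 6 := by
        have h3 := pow_le_pow_left₀ (by positivity) hBl 3
        have h4 : lam ^ (3 * l) = (lam ^ l) ^ 3 := by rw [← pow_mul]; congr 1; ring
        have h5 : lam ^ 6 * (B : ℝ) ^ 6 = (lam ^ 2 * (B : ℝ) ^ 2) ^ 3 := by ring
        rw [h4, h5]; exact h3
      have h3 : lam ^ (4 * l) = lam ^ (3 * l) * lam ^ l := by rw [← pow_add]; congr 1; ring
      calc lam ^ (4 * l) * (X / B) ^ 12 ≤ lam ^ (4 * l) * (1 / (B : ℝ) ^ 6) :=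
            mul_le_mul_of_nonneg_left h1 (by positivity)
        _ = (lam ^ (3 * l) / (B : ℝ) ^ 6) * lam ^ l := by rw [h3]; ring
        _ ≤ lam ^ 6 * lam ^ l := by
            apply mul_le_mul_of_nonneg_right _ (by positivity)
            rw [div_le_iff₀ (by positivity)]
            exact h2
        _ = lam ^ (6 + l) := by rw [pow_add]
    have hcancel : lam ^ l * u ^ (2 * s) ≤ u ^ K := by
      have h4 : u ^ (2 * s) = u ^ l * u ^ (2 * s - l) := by rw [← pow_add]; congr 1; omega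
      have h5 : lam ^ l * u ^ l = 1 := by rw [← mul_pow, hmul, one_pow]
      rw [h4, ← mul_assoc, h5, one_mul]
      exact pow_le_pow_of_le_one hmp.le hu1.le (by omega)
    have h2m : lam ^ m * u ^ m = 1 := by rw [← mul_pow, hmul, one_pow]
    have h3m : lam ^ (m + 1 + l) = lam ^ m * lam ^ (1 + l) := by
      rw [← pow_add]; congr 1; ring
    constructor
    · have hprod : |q| * |q * lam - p| * |q * β - r| ≤
          64 * D * lam ^ (2 + l) * ρ * (X / B) ^ 3 := by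
        have h1 : |q| * |q * lam - p| * |q * β - r| ≤
            (2 * X * lam ^ (m + 1 + l) / B) * (2 * X * u ^ m / B) *
              (2 * X * (8 * D * lam * ρ) / B) := by
          apply mul_le_mul _ hqr_abs (abs_nonneg _) (by positivity)
          exact mul_le_mul hq_abs hqp_abs (abs_nonneg _) (by positivity)
        refine h1.trans (le_of_eq ?_)
        have h4 : lam ^ (2 + l) = lam ^ (1 + l) * lam := by
          rw [← pow_succ]; congr 1; ring
        rw [h3m, h4]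
        field_simp
        linear_combination ((X : ℝ) ^ 3 * D * 64) * h2m
      have hρ4 : ρ ^ 4 ≤ 16 * lam ^ 4 * u ^ (2 * s) := by
        have a1 : (u ^ (s - h - 1)) ^ 4 ≤ lam ^ 4 * u ^ (2 * s) := by
          have h1 : (u ^ (s - h - 1)) ^ 4 = (lam * u) ^ 4 * (u ^ (s - h - 1)) ^ 4 := by
            rw [hmul]; ring
          have h2 : (lam * u) ^ 4 * (u ^ (s - h - 1)) ^ 4 = lam ^ 4 * u ^ (4 + 4 * (s - h - 1)) := by
            rw [pow_add, pow_mul u 4 (s - h - 1), ← pow_mul, ← pow_mul, mul_comm (s - h - 1) 4]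
            ring
          rw [h1, h2]
          apply mul_le_mul_of_nonneg_left _ (by positivity)
          exact pow_le_pow_of_le_one hmp.le hu1.le (by omega)
        have a2 : (u ^ h) ^ 4 ≤ lam ^ 4 * u ^ (2 * s) := by
          have h1 : (u ^ h) ^ 4 = (lam * u) ^ 4 * (u ^ h) ^ 4 := by
            rw [hmul]; ring
          have h2 : (lam * u) ^ 4 * (u ^ h) ^ 4 = lam ^ 4 * u ^ (4 + 4 * h) := by
            rw [pow_add, pow_mul u 4 h, ← pow_mul, ← pow_mul, mul_comm h 4]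
            ring
          rw [h1, h2]
          apply mul_le_mul_of_nonneg_left _ (by positivity)
          exact pow_le_pow_of_le_one hmp.le hu1.le (by omega)
        have a3 : ρ ^ 4 ≤ 8 * ((u ^ (s - h - 1)) ^ 4 + (u ^ h) ^ 4) := by
          rw [hρ]
          generalize u ^ (s - h - 1) = a
          generalize u ^ h = b
          nlinarith [sq_nonneg (a - b), sq_nonneg (a + b), sq_nonneg (a ^ 2 - b ^ 2),
            mul_nonneg (sq_nonneg (a - b)) (sq_nonneg (a + b)), sq_nonneg ((a - b) ^ 2),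
            mul_nonneg (sq_nonneg (a - b)) (sq_nonneg (a - b)),
            mul_nonneg (sq_nonneg (a - b)) (add_nonneg (sq_nonneg a) (sq_nonneg b))]
        linarith
      have hfinal : (64 * D * lam ^ (2 + l) * ρ * (X / B) ^ 3) ^ 4 ≤
          (64 * D) ^ 4 * 16 * lam ^ 18 * u ^ K := by
        have h1 : (64 * D * lam ^ (2 + l) * ρ * (X / B) ^ 3) ^ 4 =
            (64 * D) ^ 4 * lam ^ 8 * ρ ^ 4 * (lam ^ (4 * l) * (X / B) ^ 12) := by
          have : lam ^ (2 + l) = lam ^ 2 * lam ^ l := pow_add _ _ _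
          have h2 : lam ^ (4 * l) = (lam ^ l) ^ 4 := by rw [← pow_mul]; congr 1; ring
          rw [this, h2]; ring
        rw [h1]
        have h2 : (64 * D) ^ 4 * lam ^ 8 * ρ ^ 4 * (lam ^ (4 * l) * (X / B) ^ 12) ≤
            (64 * D) ^ 4 * lam ^ 8 * (16 * lam ^ 4 * u ^ (2 * s)) * lam ^ (6 + l) := by
          apply mul_le_mul _ hXB12 (by positivity) (by positivity)
          exact mul_le_mul_of_nonneg_left hρ4 (by positivity)
        refine h2.trans ?_
        have h3 : (64 * D) ^ 4 * lam ^ 8 * (16 * lam ^ 4 * u ^ (2 * s)) * lam ^ (6 + l) =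
            (64 * D) ^ 4 * 16 * lam ^ 18 * (lam ^ l * u ^ (2 * s)) := by
          rw [pow_add lam 6 l]; ring
        rw [h3]
        exact mul_le_mul_of_nonneg_left hcancel (by positivity)
      exact (pow_le_pow_left₀ (by positivity) hprod 4).trans hfinal
    · have hprod : |q| * |q * lam - p| * |q * lam - p| ≤
          8 * lam ^ (1 + l) * u ^ m * (X / B) ^ 3 := by
        have h1 : |q| * |q * lam - p| * |q * lam - p| ≤
            (2 * X * lam ^ (m + 1 + l) / B) * (2 * X * u ^ m / B) * (2 * X * u ^ m / B) := by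
          apply mul_le_mul _ hqp_abs (abs_nonneg _) (by positivity)
          exact mul_le_mul hq_abs hqp_abs (abs_nonneg _) (by positivity)
        refine h1.trans (le_of_eq ?_)
        rw [h3m]
        have h4 : 2 * (X : ℝ) * (lam ^ m * lam ^ (1 + l)) / B * (2 * X * u ^ m / B) *
            (2 * X * u ^ m / B) = 8 * lam ^ (1 + l) * u ^ m * (X / B) ^ 3 * (lam ^ m * u ^ m) := by
          ring
        rw [h4, h2m, mul_one]
      have hum4 : (u ^ m) ^ 4 ≤ lam ^ 4 * u ^ (2 * s) := by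
        have h1 : (u ^ m) ^ 4 = (lam * u) ^ 4 * (u ^ m) ^ 4 := by
          rw [hmul]; ring
        have h2 : (lam * u) ^ 4 * (u ^ m) ^ 4 = lam ^ 4 * u ^ (4 + 4 * m) := by
          have h3 : u ^ (4 + 4 * m) = u ^ 4 * (u ^ m) ^ 4 := by
            rw [pow_add, mul_comm 4 m, pow_mul]
          rw [h3, mul_pow]
          ring
        rw [h1, h2]
        apply mul_le_mul_of_nonneg_left _ (by positivity)
        exact pow_le_pow_of_le_one hmp.le hu1.le (by omega)
      have hfinal : (8 * lam ^ (1 + l) * u ^ m * (X / B) ^ 3) ^ 4 ≤ 8 ^ 4 * lam ^ 14 * u ^ K := by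
        have h1 : (8 * lam ^ (1 + l) * u ^ m * (X / B) ^ 3) ^ 4 =
            8 ^ 4 * lam ^ 4 * (u ^ m) ^ 4 * (lam ^ (4 * l) * (X / B) ^ 12) := by
          have : lam ^ (1 + l) = lam * lam ^ l := by rw [pow_add, pow_one]
          have h2 : lam ^ (4 * l) = (lam ^ l) ^ 4 := by rw [← pow_mul]; congr 1; ring
          rw [this, h2]; ring
        rw [h1]
        have h2 : 8 ^ 4 * lam ^ 4 * (u ^ m) ^ 4 * (lam ^ (4 * l) * (X / B) ^ 12) ≤
            8 ^ 4 * lam ^ 4 * (lam ^ 4 * u ^ (2 * s)) * lam ^ (6 + l) := by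
          apply mul_le_mul _ hXB12 (by positivity) (by positivity)
          exact mul_le_mul_of_nonneg_left hum4 (by positivity)
        refine h2.trans ?_
        have h3 : 8 ^ 4 * lam ^ 4 * (lam ^ 4 * u ^ (2 * s)) * lam ^ (6 + l) =
            8 ^ 4 * lam ^ 14 * (lam ^ l * u ^ (2 * s)) := by
          rw [pow_add lam 6 l]; ring
        rw [h3]
        exact mul_le_mul_of_nonneg_left hcancel (by positivity)
      exact (pow_le_pow_left₀ (by positivity) hprod 4).trans hfinal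

/-! ### conclusion for `α = ε` -/

lemma littlewood_unit {t : ℕ} (ht : 3 ≤ t) {d : ℕ → ℤ} {D : ℝ} (hD : ∀ k, |(d k : ℝ)| ≤ D)
    (hwin : ∀ K : ℕ, ∃ n0 l s : ℕ, 1 ≤ l ∧ l + K ≤ 2 * s ∧ ∀ i < s, d (n0 + i) = d (n0 + l + i))
    (H : ℝ) (hH : 0 ≤ H) (ε : ℝ) (hε : 0 < ε) (N : ℕ) :
    ∃ q : ℕ, N ≤ q ∧ 0 < q ∧ ∃ p r : ℤ,
      (q : ℝ) * |(q : ℝ) * quadUnit t - p| *
        (|(q : ℝ) * tail t d 0 - r| + H * |(q : ℝ) * quadUnit t - p|) < ε := by
  have hmul := unit_mul_inv ht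
  have hgt := unit_gt ht
  have hmp := inv_pos' ht
  have hmh := inv_lt_half ht
  have hinv := inv_eq ht
  have hirr := unit_irrational ht
  have hu1 : (quadUnit t)⁻¹ < 1 := by linarith
  set C : ℝ := (64 * D) ^ 4 * 16 * quadUnit t ^ 18 with hC
  have hC0 : 0 ≤ C := by positivity
  set C' : ℝ := 8 ^ 4 * quadUnit t ^ 14 with hC'
  have hC'0 : 0 ≤ C' := by positivity
  set η : ℝ := ε / (2 * (H + 1)) with hη
  have hη0 : 0 < η := by positivity
  obtain ⟨K1, hK1⟩ := exists_pow_lt_of_lt_one (show (0 : ℝ) < η ^ 4 / (C + C' + 1) by positivity) hu1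
  obtain ⟨K2, hK2⟩ := exists_pow_lt_of_lt_one
    (show (0 : ℝ) < 1 / (2 * (1 + N * quadUnit t)) by positivity) hu1
  obtain ⟨n0, l, s, hl, hls, hw⟩ := hwin (K1 + 4 * K2 + 4)
  obtain ⟨q, p, r, hq, h1, h2, h2'⟩ :=
    core ht hD (K1 + 4 * K2 + 4) n0 l s hl (by omega) hls hw
  have hpowK : ((quadUnit t)⁻¹) ^ (K1 + 4 * K2 + 4) ≤ ((quadUnit t)⁻¹) ^ K1 :=
    pow_le_pow_of_le_one hmp.le hu1.le (by omega)
  have hpowK1 : 0 < ((quadUnit t)⁻¹) ^ K1 := pow_pos hmp _
  rw [lt_div_iff₀ (by positivity)] at hK1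
  -- products small
  have h3a : |(q : ℝ)| * |(q : ℝ) * quadUnit t - p| * |(q : ℝ) * tail t d 0 - r| < η := by
    have h4 : (|(q : ℝ)| * |(q : ℝ) * quadUnit t - p| * |(q : ℝ) * tail t d 0 - r|) ^ 4 < η ^ 4 := by
      refine lt_of_le_of_lt h2 ?_
      rw [← hC]
      nlinarith
    exact lt_of_pow_lt_pow_left₀ 4 hη0.le h4
  have h3b : |(q : ℝ)| * |(q : ℝ) * quadUnit t - p| * |(q : ℝ) * quadUnit t - p| < η := by
    have h4 : (|(q : ℝ)| * |(q : ℝ) * quadUnit t - p| * |(q : ℝ) * quadUnit t - p|) ^ 4 < η ^ 4 := by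
      refine lt_of_le_of_lt h2' ?_
      rw [← hC']
      nlinarith
    exact lt_of_pow_lt_pow_left₀ 4 hη0.le h4
  have h3 : |(q : ℝ)| * |(q : ℝ) * quadUnit t - p| *
      (|(q : ℝ) * tail t d 0 - r| + H * |(q : ℝ) * quadUnit t - p|) < ε := by
    have h4 : |(q : ℝ)| * |(q : ℝ) * quadUnit t - p| *
      (|(q : ℝ) * tail t d 0 - r| + H * |(q : ℝ) * quadUnit t - p|) =
      |(q : ℝ)| * |(q : ℝ) * quadUnit t - p| * |(q : ℝ) * tail t d 0 - r| +
      H * (|(q : ℝ)| * |(q : ℝ) * quadUnit t - p| * |(q : ℝ) * quadUnit t - p|) := by ring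
    rw [h4]
    have h5 : H * (|(q : ℝ)| * |(q : ℝ) * quadUnit t - p| * |(q : ℝ) * quadUnit t - p|) ≤ H * η :=
      mul_le_mul_of_nonneg_left h3b.le hH
    have h6 : η + H * η = ε / 2 := by
      rw [hη]; field_simp; ring
    linarith
  -- q large
  have hqr : (q : ℝ) ≠ 0 := by exact_mod_cast hq
  have h5 : (N : ℝ) ≤ |(q : ℝ)| := by
    by_contra hcon
    push Not at hcon
    have hM : ((q ^ 2 - t * q * p + p ^ 2 : ℤ) : ℝ) =
        ((q : ℝ) * quadUnit t - p) * ((q : ℝ) * (quadUnit t)⁻¹ - p) := by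
      have ht' : (t : ℝ) = quadUnit t + (quadUnit t)⁻¹ := by rw [hinv]; ring
      push_cast
      rw [ht']
      linear_combination (-(q : ℝ) ^ 2) * hmul
    have hne1 : (q : ℝ) * quadUnit t - p ≠ 0 := by
      intro h0
      apply hirr
      refine ⟨(p : ℚ) / q, ?_⟩
      push_cast
      rw [div_eq_iff hqr]
      linarith
    have hne2 : (q : ℝ) * (quadUnit t)⁻¹ - p ≠ 0 := by
      intro h0
      apply hirr.inv
      refine ⟨(p : ℚ) / q, ?_⟩
      push_cast
      rw [div_eq_iff hqr]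
      linarith
    have hM0 : (q ^ 2 - t * q * p + p ^ 2 : ℤ) ≠ 0 := by
      intro h0
      rw [h0, Int.cast_zero] at hM
      rcases mul_eq_zero.mp hM.symm with h | h
      · exact hne1 h
      · exact hne2 h
    have hM1 : (1 : ℝ) ≤ |((q : ℝ) * quadUnit t - p) * ((q : ℝ) * (quadUnit t)⁻¹ - p)| := by
      rw [← hM]
      have := Int.one_le_abs hM0
      exact_mod_cast this
    rw [abs_mul] at hM1
    have h6 : |(q : ℝ) * quadUnit t - p| ≤ 2 * ((quadUnit t)⁻¹) ^ K2 := by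
      refine h1.trans ?_
      have : ((quadUnit t)⁻¹) ^ (n0 + s / 2) ≤ ((quadUnit t)⁻¹) ^ K2 :=
        pow_le_pow_of_le_one hmp.le hu1.le (by omega)
      linarith
    have h7 : ((quadUnit t)⁻¹) ^ K2 ≤ 1 / 2 := by
      refine hK2.le.trans ?_
      apply one_div_le_one_div_of_le (by norm_num)
      have : (0 : ℝ) ≤ N * quadUnit t := by positivity
      linarith
    have h8 : |(q : ℝ) * (quadUnit t)⁻¹ - p| ≤ 1 + N * quadUnit t := by
      have e : (q : ℝ) * (quadUnit t)⁻¹ - p = ((q : ℝ) * quadUnit t - p) -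
          (q : ℝ) * (quadUnit t - (quadUnit t)⁻¹) := by ring
      rw [e]
      refine (abs_sub _ _).trans ?_
      rw [abs_mul, abs_of_pos (by linarith : 0 < quadUnit t - (quadUnit t)⁻¹)]
      have a1 : |(q : ℝ)| * (quadUnit t - (quadUnit t)⁻¹) ≤ N * quadUnit t :=
        mul_le_mul hcon.le (by linarith) (by linarith) (Nat.cast_nonneg _)
      linarith
    have h9 : |(q : ℝ) * quadUnit t - p| * |(q : ℝ) * (quadUnit t)⁻¹ - p| ≤
        (2 * ((quadUnit t)⁻¹) ^ K2) * (1 + N * quadUnit t) :=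
      mul_le_mul h6 h8 (abs_nonneg _) (by positivity)
    rw [lt_div_iff₀ (by positivity)] at hK2
    linarith
  refine ⟨q.natAbs, ?_, Int.natAbs_pos.mpr hq, ?_⟩
  · have h6 : (N : ℝ) ≤ ((q.natAbs : ℕ) : ℝ) := by
      rw [Nat.cast_natAbs]; push_cast; exact h5
    exact_mod_cast h6
  · have hcast : ((q.natAbs : ℕ) : ℝ) = |(q : ℝ)| := by
      rw [Nat.cast_natAbs]; push_cast; rfl
    rcases le_or_gt 0 q with hq0 | hq0
    · have hq0r : (0 : ℝ) ≤ q := by exact_mod_cast hq0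
      refine ⟨p, r, ?_⟩
      rw [hcast, abs_of_nonneg hq0r]
      rw [abs_of_nonneg hq0r] at h3
      exact h3
    · have hq0r : (q : ℝ) < 0 := by exact_mod_cast hq0
      refine ⟨-p, -r, ?_⟩
      rw [hcast, abs_of_neg hq0r]
      rw [abs_of_neg hq0r] at h3
      push_cast
      have e1 : -(q : ℝ) * quadUnit t - -(p : ℝ) = -((q : ℝ) * quadUnit t - p) := by ring
      have e2 : -(q : ℝ) * tail t d 0 - -(r : ℝ) = -((q : ℝ) * tail t d 0 - r) := by ring
      rw [e1, e2, abs_neg, abs_neg]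
      exact h3

/-- common denominators -/
lemma exists_common_den (s : Finset ℚ) : ∃ c : ℕ, 0 < c ∧ ∀ x ∈ s, ∃ z : ℤ, (c : ℝ) * (x : ℝ) = z := by
  induction s using Finset.induction_on with
  | empty => exact ⟨1, one_pos, by simp⟩
  | insert a s _ ih =>
    obtain ⟨c, hc, h⟩ := ih
    refine ⟨c * a.den, Nat.mul_pos hc a.den_pos, ?_⟩
    intro x hx
    rw [mem_insert] at hx
    rcases hx with rfl | hx
    · refine ⟨c * x.num, ?_⟩
      have h1 : (x : ℝ) * x.den = x.num := by exact_mod_cast Rat.mul_den_eq_num x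
      push_cast
      linear_combination (c : ℝ) * h1
    · obtain ⟨z, hz⟩ := h x hx
      refine ⟨z * a.den, ?_⟩
      push_cast
      linear_combination (a.den : ℝ) * hz

lemma littlewood_field {t : ℕ} (ht : 3 ≤ t) {d : ℕ → ℤ} {D : ℝ} (hD : ∀ k, |(d k : ℝ)| ≤ D)
    (hwin : ∀ K : ℕ, ∃ n0 l s : ℕ, 1 ≤ l ∧ l + K ≤ 2 * s ∧ ∀ i < s, d (n0 + i) = d (n0 + l + i))
    (a b r0 a' b' : ℚ) (ε : ℝ) (hε : 0 < ε) (N : ℕ) (α β : ℝ) (hα : α = a + b * quadUnit t)
    (hβ : β = r0 * tail t d 0 + (a' + b' * quadUnit t)) :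
    ∃ q : ℕ, N ≤ q ∧ 0 < q ∧
      (q : ℝ) * |(q : ℝ) * α - (round ((q : ℝ) * α) : ℝ)| *
        |(q : ℝ) * β - (round ((q : ℝ) * β) : ℝ)| < ε := by
  obtain ⟨c, hcpos, hcs⟩ := exists_common_den {a, b, r0, a', b'}
  obtain ⟨A, hA⟩ := hcs a (by simp)
  obtain ⟨B, hB⟩ := hcs b (by simp)
  obtain ⟨E, hE⟩ := hcs r0 (by simp)
  obtain ⟨F, hF⟩ := hcs a' (by simp)
  obtain ⟨G, hG⟩ := hcs b' (by simp)
  have hcr : (0 : ℝ) < c := by exact_mod_cast hcpos
  have hfac : (0 : ℝ) < (c : ℝ) * (|(B : ℝ)| + 1) * (|(E : ℝ)| + 1) := by positivity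
  obtain ⟨q, hNq, hq0, p, r, h⟩ := littlewood_unit ht hD hwin |(G : ℝ)| (abs_nonneg _)
    (ε / ((c : ℝ) * (|(B : ℝ)| + 1) * (|(E : ℝ)| + 1))) (div_pos hε hfac) N
  refine ⟨c * q, ?_, Nat.mul_pos hcpos hq0, ?_⟩
  · calc N ≤ q := hNq
      _ ≤ c * q := Nat.le_mul_of_pos_left q hcpos
  · have h1 := round_le (((c * q : ℕ) : ℝ) * α) (q * A + B * p)
    have h2 := round_le (((c * q : ℕ) : ℝ) * β) (E * r + q * F + G * p)
    have e1 : ((c * q : ℕ) : ℝ) * α - ((q * A + B * p : ℤ) : ℝ) =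
        B * ((q : ℝ) * quadUnit t - p) := by
      push_cast
      rw [← hA, ← hB, hα]; ring
    have e2 : ((c * q : ℕ) : ℝ) * β - ((E * r + q * F + G * p : ℤ) : ℝ) =
        E * ((q : ℝ) * tail t d 0 - r) + G * ((q : ℝ) * quadUnit t - p) := by
      push_cast
      rw [← hE, ← hF, ← hG, hβ]; ring
    rw [e1, abs_mul] at h1
    rw [e2] at h2
    have h2' : |((c * q : ℕ) : ℝ) * β - (round (((c * q : ℕ) : ℝ) * β) : ℝ)| ≤
        (|(E : ℝ)| + 1) * (|(q : ℝ) * tail t d 0 - r| + |(G : ℝ)| * |(q : ℝ) * quadUnit t - p|) := by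
      refine h2.trans ((abs_add_le _ _).trans ?_)
      rw [abs_mul, abs_mul]
      have a1 : 0 ≤ |(q : ℝ) * tail t d 0 - r| := abs_nonneg _
      have a2 : 0 ≤ |(G : ℝ)| * |(q : ℝ) * quadUnit t - p| := by positivity
      have a3 : 0 ≤ |(E : ℝ)| := abs_nonneg _
      nlinarith
    have h1' : |((c * q : ℕ) : ℝ) * α - (round (((c * q : ℕ) : ℝ) * α) : ℝ)| ≤
        (|(B : ℝ)| + 1) * |(q : ℝ) * quadUnit t - p| := by
      refine h1.trans ?_
      have a1 : 0 ≤ |(q : ℝ) * quadUnit t - p| := abs_nonneg _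
      nlinarith
    have h3 : ((c * q : ℕ) : ℝ) * |((c * q : ℕ) : ℝ) * α - (round (((c * q : ℕ) : ℝ) * α) : ℝ)| *
        |((c * q : ℕ) : ℝ) * β - (round (((c * q : ℕ) : ℝ) * β) : ℝ)| ≤
        ((c * q : ℕ) : ℝ) * ((|(B : ℝ)| + 1) * |(q : ℝ) * quadUnit t - p|) *
          ((|(E : ℝ)| + 1) *
            (|(q : ℝ) * tail t d 0 - r| + |(G : ℝ)| * |(q : ℝ) * quadUnit t - p|)) := by
      apply mul_le_mul _ h2' (abs_nonneg _) (by positivity)
      exact mul_le_mul_of_nonneg_left h1' (Nat.cast_nonneg _)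
    refine lt_of_le_of_lt h3 ?_
    rw [lt_div_iff₀ hfac] at h
    refine lt_of_eq_of_lt ?_ h
    push_cast
    ring

/-- Let `t ≥ 3`, `ε = (t + √(t²-4))/2`, and let `d` be a bounded sequence of integers such that for
every `K` there are two equal blocks of some length `s` at some distance `l ≥ 1` with
`l + K ≤ 2s`. Then Littlewood's conjecture holds for every pair `(α, β)` with `α` an irrational
element of `ℚ(ε)` and `β` in `ℚ · ∑_{k≥0} d_k ε^{-(k+1)} + ℚ(ε)`. -/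
theorem result (t : ℕ) (ht : 3 ≤ t) (d : ℕ → ℤ) (hd : ∃ B : ℤ, ∀ k, |d k| ≤ B)
    (hrep : ∀ K : ℕ, ∃ n l s : ℕ, 1 ≤ l ∧ l + K ≤ 2 * s ∧ ∀ i < s, d (n + i) = d (n + l + i))
    (α : ℝ) (_hα : Irrational α) (hαt : ∃ a b : ℚ, α = a + b * quadUnit t)
    (β : ℝ) (hβ : ∃ r a b : ℚ, β = r * ∑' k : ℕ, (d k : ℝ) / quadUnit t ^ (k + 1) +
      (a + b * quadUnit t)) :
    ∀ ε : ℝ, 0 < ε → ∀ N : ℕ, ∃ q : ℕ, N ≤ q ∧ 0 < q ∧
      (q : ℝ) * |(q : ℝ) * α - (round ((q : ℝ) * α) : ℝ)|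
        * |(q : ℝ) * β - (round ((q : ℝ) * β) : ℝ)| < ε := by
  intro ε hε N
  obtain ⟨a, b, hab⟩ := hαt
  obtain ⟨r0, a', b', hβ⟩ := hβ
  obtain ⟨B, hB⟩ := hd
  have hD : ∀ k, |(d k : ℝ)| ≤ (B : ℝ) := by
    intro k; exact_mod_cast hB k
  have hβ' : ∑' k : ℕ, (d k : ℝ) / quadUnit t ^ (k + 1) = tail t d 0 := by
    unfold tail
    apply tsum_congr
    intro k
    rw [zero_add, inv_pow, div_eq_mul_inv]
  rw [hβ'] at hβ
  exact littlewood_field ht hD hrep a b r0 a' b' ε hε N α β hab hβ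

end Pool.Agent.Results.MP_0ea415_nt.RepetitiveDigits
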